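import Pool.Agent.H43.QO.Stmt
import Pool.Agent.H91.UV.TargetsA

/-!
# MP_c62aed_lc, constraints chosen after the formula: targets without the core (helper43)
-/

set_option autoImplicit false

namespace Pool.Agent.H43.QO

open Finset Matrix
open Pool.Agent.H1.LP (Clause viol)
open Pool.Agent.H49.SDP (SRelax HardS)
open Pool.Agent.H91.UV (URelax S_UDUAL S_TOS)

/-- HB: weights for the clause constraints (separation theorem in `R^T`) -/
def S_HB : Prop :=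
  ∀ (n : ℕ) (P : Pool n) (I : Finset (Fin P.nb)) (T : Finset (Fin P.nc)) (de : ℝ),
    P.cell.Nonempty → P.Infeas I T de →
    ∃ mu : Fin P.nc → ℝ, (∀ t, 0 ≤ mu t) ∧ (∀ t, t ∉ T → mu t = 0) ∧ ∑ t, mu t = 1 ∧
      ∀ y : Fin P.dim → ℝ, (∀ i ∈ I, (P.B0 i + ∑ k, y k • P.B i k).PosSemidef) →
        de ≤ ∑ t, mu t * P.loss t y

/-- ODUAL: duality for the chosen constraints; `S_HB → S_UDUAL → S_ODUAL` -/
def S_ODUAL : Prop :=
  ∀ (n : ℕ) (P : Pool n) (I : Finset (Fin P.nb)) (T : Finset (Fin P.nc)) (de : ℝ),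
    P.cell.Nonempty → P.Infeas I T de → ∀ η : ℝ, 0 < η →
    ∃ (mu : Fin P.nc → ℝ) (L : (i : Fin P.nb) → Matrix (Fin (P.ord i)) (Fin (P.ord i)) ℝ)
      (lam0 : ℝ), (∀ t, 0 ≤ mu t) ∧ (∀ t, t ∉ T → mu t = 0) ∧ ∑ t, mu t = 1 ∧
      (∀ i, (L i).PosSemidef) ∧ (∀ i, i ∉ I → L i = 0) ∧ 0 ≤ lam0 ∧
      ∀ x ∈ P.cell, |∑ t, mu t * P.loss t (P.pt x) - de -
        (lam0 + ∑ i, (L i * (P.B0 i + ∑ k, P.pt x k • P.B i k)).trace)| ≤ η

/-- MONO: `S_TOS → S_MONO`; a fixed list of relaxations with the sum of the losses gives a small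
exponent for constraints chosen after the formula -/
def S_MONO : Prop :=
  ∀ (k : ℕ) (ε c : ℝ), 0 < c → HardS k ε c → ∃ c' : ℝ, 0 < c' ∧ HardO k ε c' c'

/-- PADO: padding of the clauses -/
def S_PADO : Prop :=
  ∀ (w k : ℕ) (ε c c' C C' : ℝ), w ≤ k → c' < c → C' < C → HardO w ε c C → HardO k ε c' C'

/-- LIMO: `S_PADO → S_MONO → S_LIMO` -/
def S_LIMO : Prop :=
  StatementOW → (∀ ε : ℝ, 0 < ε → ∃ c : ℝ, 0 < c ∧ HardS 3 ε c) → StatementO

end Pool.Agent.H43.QO
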