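import Pool.Agent.H76.QE.Targets
import Pool.Agent.H91.SV.Targets
import Pool.Agent.H43.QO.TargetsA

/-!
# MP_c62aed_lc, constraints chosen after the formula: targets for the clause constraints (helper43)
-/

set_option autoImplicit false

namespace Pool.Agent.H43.QO

open Finset Matrix
open Pool.Agent.H1.LP (supp ip comb)
open Pool.Agent.H76.QE
open H43.PS (PosDeg Low av)
open Pool.Agent.H73.OX (ch)

open Classical in
/-- VKE: the quadratic form of the violated part of the density on characters: only combinations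
with a number of forms between `τ - 1` and `τ + 2` occur -/
def T_VKE : Prop := ∀ (p R N τ t₁ : ℕ) [Fact p.Prime] (A : Fin (R + R) → Fin N → ZMod p)
  (b : Fin (R + R) → ZMod p) (i : Fin R) (γ : ℝ), Indp A t₁ → 2 ≤ τ → 0 ≤ γ →
  (∀ C : Fin (R + R) → ZMod p, τ < (supp C).card + 4 → ‖KF b C‖ ≤ γ) →
  ∃ κ : (Fin (R + R) → ZMod p) → ℂ, (∀ C, (supp C).card + 2 ≤ τ → κ C = 0) ∧
    (∀ C, ‖κ C‖ ≤ (p : ℝ) ^ 2 * γ) ∧
    ∀ (V : Finset (Fin N → ZMod p)) (a : (Fin N → ZMod p) → ℂ) (f : (Fin N → ZMod p) → ℝ),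
      (∀ z, ((f z : ℝ) : ℂ) = ∑ l ∈ V, a l * ch l z) →
      ∑ z, (if Bad A b i z then D0 A τ b z else 0) * f z ^ 2 =
        (p : ℝ) ^ N * (∑ x ∈ V, ∑ y ∈ V, a x * (starRingEnd ℂ) (a y) *
          ∑ C ∈ (CC p (R + R) (τ + 2)).filter (fun C => comb A C = y - x), κ C).re

open Classical in
/-- LVP: `T_VKE → T_PSV → T_FOU → T_COV → T_SCH → T_LVP`; the violated part is small on squares -/
def T_LVP : Prop := ∀ (p R N E h t₀ τ t₁ : ℕ) [Fact p.Prime]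
  (A : Fin (R + R) → Fin N → ZMod p) (b : Fin (R + R) → ZMod p) (β : ℝ), 1 ≤ E → 0 ≤ β →
  Indp A t₁ → NoStar A E h t₀ t₁ → 2 ≤ τ → 2 * (τ + 2) ≤ t₁ →
  (∀ C : Fin (R + R) → ZMod p, τ < (supp C).card + 4 →
    (p : ℝ) ^ 2 * ‖KF b C‖ * (2 * E * (CC p (R + R) t₀).card) ≤ β) →
  ∀ (i : Fin R) (f : (Fin N → ZMod p) → ℝ), Low h f →
    |∑ z, (if Bad A b i z then D0 A τ b z else 0) * f z ^ 2| ≤ β * ∑ z, f z ^ 2

open Classical in
/-- `Good`, and the violated part of the density is small on squares of functions of degree at most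
`h`. -/
def Good2 (p N R k h : ℕ) [NeZero p] (g θ : ℝ) : Prop :=
  ∃ (T : Fin R → Finset (Fin N)) (bad : Fin R → (Fin N → ZMod p) → Prop)
    (D : (Fin N → ZMod p) → ℝ), (∀ i, (T i).card = k) ∧
    (∀ i z z', (∀ j ∈ T i, z j = z' j) → (bad i z ↔ bad i z')) ∧
    (∀ z, g * R ≤ ((univ.filter (fun i => bad i z)).card : ℝ)) ∧
    (∀ z, |D z| ≤ (p : ℝ) ^ N) ∧ PosDeg h D ∧ av D = 1 ∧
    ∀ i, PosDeg h (fun z => θ - if bad i z then D z else 0)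

/-- GOO2: `T_CNT → T_DZP → T_KFB → T_POS → T_SYQ → T_LVP → T_GOO2` -/
def T_GOO2 : Prop := ∀ E : ℕ, 2 ≤ E → ∃ (K w ρ k p : ℕ) (_ : Fact p.Prime), E ≤ K ∧ 1 ≤ w ∧
  1 ≤ ρ ∧ 1 ≤ k ∧ 2 ^ K < p ∧ p ≤ 2 ^ (K + 1) ∧ ∀ u : ℕ, k ≤ u →
    Good2 p (w * u) (ρ * u) k (w * u - w * u / E) (1 - 1 / (E : ℝ)) (((4 : ℝ) ^ (w * u))⁻¹)

open Classical in
/-- ABSO2: the abstract inequality with clause constraints.  `K` = kernel, `F a` = the clauses of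
the formula `a`, `sat c x` = the point `x` satisfies `c`, `th` = bound for the violated clauses;
`I a j`, `T a j` = the chosen matrix inequalities and clause constraints of the cell `j`. -/
def S_ABSO2 : Prop :=
  ∀ (X Y C : Type) [Fintype X] [Nonempty X] [Fintype Y] [Fintype C] (K : Y → X → ℝ)
    (kb Mx θ W th : ℝ) (F : Y → Finset C) (sat : C → X → Prop),
    0 ≤ kb → 1 ≤ Mx → 0 < θ → 0 ≤ th → (∀ a x, |K a x| ≤ Mx) →
    (∀ a, ∑ x, K a x = Fintype.card X) →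
    (∀ (q : ℕ) (f : Y → Matrix (Fin q) (Fin q) ℝ) (g : X → Matrix (Fin q) (Fin q) ℝ),
      (q : ℝ) ≤ W → (∀ a, (f a).PosSemidef) → (∀ x, (g x).PosSemidef) →
      ∀ (A : Finset Y) (X' : Finset X) (m : ℝ), 0 < m →
      (∀ a ∈ A, ∀ x ∈ X', (f a * g x).trace ≤ m) →
      -(Mx * (2 * Real.sqrt ((∑ a ∈ A, ∑ x ∈ X', (f a * g x).trace) *
        (kb * m * q * (A.card + θ) * Fintype.card X)) +
        kb * m * q * (A.card + θ) * Fintype.card X)) ≤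
        ∑ a ∈ A, ∑ x ∈ X', K a x * (f a * g x).trace) →
    (∀ (c : C) (f : Y → ℝ) (g : X → ℝ), (∀ a, 0 ≤ f a) → (∀ x, 0 ≤ g x) →
      (∀ a, f a ≠ 0 → c ∈ F a) → (∀ x, g x ≠ 0 → ¬ sat c x) →
      ∀ (A : Finset Y) (X' : Finset X) (m : ℝ), 0 < m → (∀ a ∈ A, ∀ x ∈ X', f a * g x ≤ m) →
      ∑ a ∈ A, ∑ x ∈ X', K a x * (f a * g x) ≤ th * (∑ a ∈ A, ∑ x ∈ X', f a * g x) +
        2 * Mx * (2 * Real.sqrt ((∑ a ∈ A, ∑ x ∈ X', f a * g x) *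
          (kb * m * (A.card + θ) * Fintype.card X)) +
          kb * m * (A.card + θ) * Fintype.card X)) →
    ∀ (M : ℕ) (A : Finset Y) (J : Y → Finset (Fin M)) (cell : Fin M → Set X) (nb nc : Fin M → ℕ)
      (o : (j : Fin M) → Fin (nb j) → ℕ) (cl : (j : Fin M) → Fin (nc j) → C)
      (I : Y → (j : Fin M) → Finset (Fin (nb j))) (T : Y → (j : Fin M) → Finset (Fin (nc j)))
      (G : (j : Fin M) → X → (i : Fin (nb j)) → Matrix (Fin (o j i)) (Fin (o j i)) ℝ)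
      (L : Y → (j : Fin M) → (i : Fin (nb j)) → Matrix (Fin (o j i)) (Fin (o j i)) ℝ)
      (lam0 : Y → Fin M → ℝ) (mu : Y → (j : Fin M) → Fin (nc j) → ℝ)
      (ls : (j : Fin M) → Fin (nc j) → X → ℝ) (de S : ℝ),
      0 < de → th ≤ de / 4 →
      (∀ a ∈ A, ∀ x, ∃ j ∈ J a, x ∈ cell j) →
      (∀ a ∈ A, ∀ j ∈ J a, ∀ j' ∈ J a, j ≠ j' → Disjoint (cell j) (cell j')) →
      (∀ j, ∀ x ∈ cell j, ∀ i, (G j x i).PosSemidef) → (∀ a j i, (L a j i).PosSemidef) →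
      (∀ a j i, i ∉ I a j → L a j i = 0) → (∀ a j, 0 ≤ lam0 a j) →
      (∀ a j t, 0 ≤ mu a j t) → (∀ a j t, t ∉ T a j → mu a j t = 0) →
      (∀ a ∈ A, ∀ j ∈ J a, ∑ t, mu a j t ≤ 1) →
      (∀ a ∈ A, ∀ j ∈ J a, ∀ t ∈ T a j, cl j t ∈ F a) →
      (∀ j t, ∀ x ∈ cell j, |ls j t x| ≤ 1) →
      (∀ j t, ∀ x ∈ cell j, sat (cl j t) x → ls j t x ≤ 0) →
      (∀ a ∈ A, ∀ j ∈ J a, ∀ x ∈ cell j,
        |∑ t, mu a j t * ls j t x - de - (lam0 a j + ∑ i, (L a j i * G j x i).trace)| ≤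
          de / (4 * Mx)) →
      (∀ a ∈ A, ∑ j ∈ J a, (∑ i ∈ I a j, (o j i : ℝ) + (T a j).card + 1) ≤ S) →
      ∑ j, (∑ i, (o j i : ℝ) + nc j + 1) ≤ W → θ * W ≤ A.card → 0 < A.card →
      de ^ 2 ≤ 2 ^ 14 * Mx ^ 2 * kb * (S + 1)

end Pool.Agent.H43.QO
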