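import Pool.Agent.H1.LP.Stmt

/-!
# SETH for semidefinite programs with constraints chosen after the formula: the statement
(MP_c62aed_lc)
-/

set_option autoImplicit false

namespace Pool.Agent.H43.QO

open Pool.Agent.H1.LP (Clause viol)
open Filter Topology

/-- A pool of constraints for CNF-SAT on a cell of the cube.  It consists of a space of any finite
dimension `dim`, a point `pt x` of the space for every assignment `x`, `nb` linear matrix
inequalities (`B0 i + ∑ k, y k • B i k` is positive semidefinite, with symmetric matrices of order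
`ord i`; a linear inequality is the case `ord i = 1`) which hold at the points `pt x` with `x` in
the cell, and `nc` clause constraints: the clause constraint `t` belongs to the clause `cl t` and
demands that an affine functional is `≤ 0`; it holds at all points `pt x` such that `x` in the cell
satisfies `cl t`, and the functional takes values in `[-1, 1]` at all points `pt x` with `x` in the
cell.  A clause may have any number of clause constraints. -/
structure Pool (n : ℕ) where
  /-- the cell -/
  cell : Finset (Fin n → Bool)
  /-- the dimension of the space -/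
  dim : ℕ
  /-- the point of an assignment -/
  pt : (Fin n → Bool) → Fin dim → ℝ
  /-- the number of linear matrix inequalities -/
  nb : ℕ
  /-- the orders of the matrices -/
  ord : Fin nb → ℕ
  /-- the constant matrices -/
  B0 : (i : Fin nb) → Matrix (Fin (ord i)) (Fin (ord i)) ℝ
  /-- the coefficient matrices -/
  B : (i : Fin nb) → Fin dim → Matrix (Fin (ord i)) (Fin (ord i)) ℝ
  /-- the number of clause constraints -/
  nc : ℕ
  /-- the clause to which a clause constraint belongs -/
  cl : Fin nc → Clause n
  /-- the linear part of a clause constraint -/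
  w : Fin nc → Fin dim → ℝ
  /-- the constant part of a clause constraint -/
  w0 : Fin nc → ℝ
  symm0 : ∀ i, (B0 i).IsSymm
  symm : ∀ i k, (B i k).IsSymm
  feas : ∀ x ∈ cell, ∀ i, (B0 i + ∑ k, pt x k • B i k).PosSemidef
  bdd : ∀ x ∈ cell, ∀ t, |∑ k, w t k * pt x k + w0 t| ≤ 1
  sound : ∀ x ∈ cell, ∀ t, (cl t).Sat x → ∑ k, w t k * pt x k + w0 t ≤ 0

/-- the affine functional of the clause constraint `t` at the point `y`. -/
noncomputable def Pool.loss {n : ℕ} (P : Pool n) (t : Fin P.nc) (y : Fin P.dim → ℝ) : ℝ :=
  ∑ k, P.w t k * y k + P.w0 t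

/-- The size of a set of constraints: the total order of the matrices, plus the number of clause
constraints, plus one. -/
noncomputable def Pool.sizeOf {n : ℕ} (P : Pool n) (I : Finset (Fin P.nb)) (T : Finset (Fin P.nc)) :
    ℝ :=
  ∑ i ∈ I, (P.ord i : ℝ) + T.card + 1

/-- The constraints in `I` and `T` are unsatisfiable with margin `de`: at every point of the space
which satisfies the linear matrix inequalities in `I` the functional of some clause constraint in
`T` is at least `de`. -/
def Pool.Infeas {n : ℕ} (P : Pool n) (I : Finset (Fin P.nb)) (T : Finset (Fin P.nc)) (de : ℝ) :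
    Prop :=
  ∀ y : Fin P.dim → ℝ, (∀ i ∈ I, (P.B0 i + ∑ k, y k • P.B i k).PosSemidef) →
    ∃ t ∈ T, de ≤ P.loss t y

/-- Constraints from the pools `P`, of total size at most `S`, refute the formula `phi` with margin
`de`: one chooses pools whose cells are disjoint and cover the cube, and in each of them a set of
linear matrix inequalities and a set of clause constraints which belong to clauses of `phi`, such
that they are unsatisfiable with margin `de`.  All choices may depend on `phi`. -/
def RefutedBy {n M m : ℕ} (P : Fin M → Pool n) (phi : Fin m → Clause n) (de S : ℝ) : Prop :=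
  ∃ (J : Finset (Fin M)) (I : (j : Fin M) → Finset (Fin (P j).nb))
    (T : (j : Fin M) → Finset (Fin (P j).nc)),
    (∀ j ∈ J, ∀ j' ∈ J, j ≠ j' → Disjoint (P j).cell (P j').cell) ∧
    (∀ x, ∃ j ∈ J, x ∈ (P j).cell) ∧
    (∀ j ∈ J, (∀ t ∈ T j, ∃ i, phi i = (P j).cl t) ∧ (P j).Infeas (I j) (T j) de) ∧
    ∑ j ∈ J, (P j).sizeOf (I j) (T j) ≤ S

open Classical in
/-- Semidefinite programs of size `2 ^ (c n)`, with constraints chosen after the formula from pools
of total size `2 ^ (C n)`, do not refute `k`-CNFs with `O(n)` clauses and with the gap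
`(1 - ε) / 2 ^ k`.  There are `K` and `γ > 0` such that for all large `n` there is a finite list of
CNFs with `n` variables, at most `K n` clauses, all of width exactly `k`, every assignment violating
at least `(1 - ε) m / 2 ^ k` of the `m` clauses, with the property: for all pools of constraints, of
total size at most `2 ^ (C n)`, at most a fraction `2 ^ (- γ n)` of the formulas of the list is
refuted with margin `2 ^ (- γ n)` by constraints from the pools of total size at most
`2 ^ (c n)`. -/
def HardO (k : ℕ) (ε c C : ℝ) : Prop :=
  ∃ (K : ℕ) (γ : ℝ), 0 < γ ∧ ∃ n₀ : ℕ, ∀ n : ℕ, n₀ ≤ n →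
    ∃ (Y : ℕ) (m : Fin Y → ℕ) (phi : (a : Fin Y) → Fin (m a) → Clause n), 0 < Y ∧
      (∀ a, 1 ≤ m a ∧ m a ≤ K * n ∧
        (∀ i, (phi a i).card = k ∧ ((phi a i).image Prod.fst).card = k) ∧
        ∀ x, (1 - ε) * ((m a : ℝ) / 2 ^ k) ≤ (viol (phi a) x : ℝ)) ∧
      ∀ (M : ℕ) (P : Fin M → Pool n),
        ∑ j, (P j).sizeOf Finset.univ Finset.univ ≤ (2 : ℝ) ^ (C * n) →
        ((Finset.univ.filter (fun a => RefutedBy P (phi a) ((2 : ℝ) ^ (-(γ * n)))
          ((2 : ℝ) ^ (c * n)))).card : ℝ) ≤ (2 : ℝ) ^ (-(γ * n)) * Y

/-- The large width case: for every `ε > 0` and every `C` there is a width. -/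
def StatementOW : Prop :=
  ∀ C ε : ℝ, 0 < ε → ∃ k : ℕ, HardO k ε (1 - ε) C

/-- ETH and SETH for linear, second order cone and semidefinite programs with branch and bound and
with constraints chosen after the formula: for every gap `ε > 0` there are exponents `c k`, positive
for all `k ≥ 3` and tending to `1`, and `C k ≥ c k`, tending to infinity, such that constraints of
total size `2 ^ (c k n)`, chosen after the formula from pools of total size `2 ^ (C k n)`, do not
refute `k`-CNFs with `n` variables and `O(n)` clauses, in which every assignment violates a fraction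
at least `(1 - ε) / 2 ^ k` of the clauses. -/
def StatementO : Prop :=
  ∀ ε : ℝ, 0 < ε → ∃ c C : ℕ → ℝ, (∀ k, 3 ≤ k → 0 < c k ∧ c k ≤ C k) ∧ Tendsto c atTop (𝓝 1) ∧
    Tendsto C atTop atTop ∧ ∀ k, 3 ≤ k → HardO k ε (c k) (C k)

end Pool.Agent.H43.QO
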